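import Mathlib

set_option autoImplicit false

/-!
Every separable metrizable space of covering dimension at most `n` has a topology which is the
intersection of `n + 1` finer separable metrizable zero-dimensional topologies.
-/

universe u

namespace Pool.Agent.Results.MP_085bfa_gt.SnSeparable

open Set TopologicalSpace Filter
open scoped Topology

/-- Covering dimension at most `n`: every finite open cover has a finite open refinement in
which every point lies in at most `n + 1` members. -/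
def CoveringDimLE (X : Type u) [TopologicalSpace X] (n : ℕ) : Prop :=
  ∀ 𝒰 : Set (Set X), 𝒰.Finite → (∀ U ∈ 𝒰, IsOpen U) → ⋃₀ 𝒰 = univ →
    ∃ 𝒱 : Set (Set X), 𝒱.Finite ∧ (∀ V ∈ 𝒱, IsOpen V) ∧ ⋃₀ 𝒱 = univ ∧
      (∀ V ∈ 𝒱, ∃ U ∈ 𝒰, V ⊆ U) ∧ ∀ x, {V ∈ 𝒱 | x ∈ V}.encard ≤ n + 1

/-- The topology `σ` on `X` is separable, metrizable and zero-dimensional (its clopen sets form
a base, that is, its small inductive dimension is at most `0`). -/
structure IsSM0 {X : Type u} (σ : TopologicalSpace X) : Prop where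
  separable : @SeparableSpace X σ
  metrizable : @MetrizableSpace X σ
  zeroDim : @IsTopologicalBasis X σ {s : Set X | @IsClopen X σ s}

/-! ### Good covers -/

section covers

variable {X : Type u} [TopologicalSpace X]

/-- A finite open cover, indexed by `ℕ` with empty tail, whose closures have order `≤ n+1`. -/
structure Good (n : ℕ) (V : ℕ → Set X) : Prop where
  op : ∀ j, IsOpen (V j)
  cov : ∀ x, ∃ j, x ∈ V j
  fin : ∃ m, ∀ j, m ≤ j → V j = ∅
  ord : ∀ x, {j | x ∈ closure (V j)}.encard ≤ n + 1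

lemma exists_good [NormalSpace X] {n : ℕ} (h : CoveringDimLE X n) (𝒰 : Set (Set X))
    (hfin : 𝒰.Finite) (hop : ∀ U ∈ 𝒰, IsOpen U) (hcov : ⋃₀ 𝒰 = univ) :
    ∃ V : ℕ → Set X, Good n V ∧ ∀ j, V j = ∅ ∨ ∃ U ∈ 𝒰, V j ⊆ U := by
  classical
  obtain ⟨𝒱, hVfin, hVop, hVcov, hVref, hVord⟩ := h 𝒰 hfin hop hcov
  have : Finite 𝒱 := hVfin
  obtain ⟨v, hvcov, hvop, hvcl⟩ := exists_iUnion_eq_closure_subset (u := fun i : 𝒱 => (i : Set X))
    (fun i => hVop _ i.2) (fun x => toFinite _) (by rw [← sUnion_eq_iUnion, hVcov])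
  let e := Finite.equivFin 𝒱
  let V : ℕ → Set X := fun j => if h : j < Nat.card 𝒱 then v (e.symm ⟨j, h⟩) else ∅
  have hVj : ∀ i : 𝒱, V (e i) = v i := by
    intro i
    simp only [V]
    rw [dif_pos (e i).2]
    exact congrArg v (e.symm_apply_apply i)
  refine ⟨V, ⟨?_, ?_, ?_, ?_⟩, ?_⟩
  · intro j
    by_cases h : j < Nat.card 𝒱
    · simp only [V, dif_pos h]
      exact hvop _
    · simp only [V, dif_neg h]
      exact isOpen_empty
  · intro x
    have hx : x ∈ ⋃ i, v i := by rw [hvcov]; trivial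
    obtain ⟨i, hi⟩ := mem_iUnion.1 hx
    exact ⟨e i, by rw [hVj]; exact hi⟩
  · refine ⟨Nat.card 𝒱, fun j hj => ?_⟩
    simp only [V, dif_neg (not_lt.2 hj)]
  · intro x
    have hsub : {j | x ∈ closure (V j)} ⊆
        (fun i : 𝒱 => ((e i : Fin _) : ℕ)) '' {i : 𝒱 | x ∈ (i : Set X)} := by
      intro j hj
      by_cases h : j < Nat.card 𝒱
      · refine ⟨e.symm ⟨j, h⟩, ?_, congrArg Fin.val (e.apply_symm_apply ⟨j, h⟩)⟩
        apply hvcl
        have hj' : x ∈ closure (V j) := hj
        simpa only [V, dif_pos h] using hj'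
      · exfalso
        have hj' : x ∈ closure (V j) := hj
        simp only [V, dif_neg h, closure_empty, mem_empty_iff_false] at hj'
    refine (encard_le_encard hsub).trans ((encard_image_le _ _).trans ?_)
    refine le_trans ?_ (hVord x)
    have : Function.Injective (Subtype.val : 𝒱 → Set X) := Subtype.val_injective
    rw [← this.encard_image]
    apply encard_le_encard
    rintro _ ⟨i, hi, rfl⟩
    exact ⟨i.2, hi⟩
  · intro j
    by_cases h : j < Nat.card 𝒱
    · right
      obtain ⟨U, hU, hiU⟩ := hVref _ (e.symm ⟨j, h⟩).2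
      refine ⟨U, hU, ?_⟩
      simp only [V, dif_pos h]
      exact (subset_closure.trans (hvcl _)).trans hiU
    · left
      simp only [V, dif_neg h]

/-- Refinement step. -/
lemma step [NormalSpace X] {n : ℕ} (h : CoveringDimLE X n) {V : ℕ → Set X} (hV : Good n V)
    {A B : Set X} (hA : IsOpen A) (hB : IsOpen B) (hAB : A ∪ B = univ) :
    ∃ V' : ℕ → Set X, Good n V' ∧ (∃ p : ℕ → ℕ, ∀ j, V' j ⊆ V (p j)) ∧
      ∀ j, V' j ⊆ A ∨ V' j ⊆ B := by
  classical
  obtain ⟨m, hm⟩ := hV.fin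
  let 𝒰 : Set (Set X) := (fun q : Fin m × Bool => V q.1 ∩ (if q.2 then A else B)) '' univ
  obtain ⟨V', hV', href⟩ := exists_good h 𝒰 (toFinite _) (by
      rintro _ ⟨q, _, rfl⟩
      apply (hV.op _).inter
      split_ifs
      · exact hA
      · exact hB) (by
      rw [eq_univ_iff_forall]
      intro x
      obtain ⟨j, hj⟩ := hV.cov x
      have hjm : j < m := by
        by_contra hc
        rw [hm j (not_lt.1 hc)] at hj
        exact hj
      have hx : x ∈ A ∪ B := by rw [hAB]; trivial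
      rcases hx with hx | hx
      · exact ⟨_, ⟨(⟨j, hjm⟩, true), trivial, rfl⟩, hj, by simpa using hx⟩
      · exact ⟨_, ⟨(⟨j, hjm⟩, false), trivial, rfl⟩, hj, by simpa using hx⟩)
  have hex : ∀ j, (∃ i, V' j ⊆ V i) ∧ (V' j ⊆ A ∨ V' j ⊆ B) := by
    intro j
    rcases href j with h0 | ⟨_, ⟨q, _, rfl⟩, hq⟩
    · rw [h0]
      exact ⟨⟨0, empty_subset _⟩, Or.inl (empty_subset _)⟩
    · refine ⟨⟨q.1, hq.trans inter_subset_left⟩, ?_⟩
      have h2 := hq.trans inter_subset_right
      by_cases hq2 : q.2 = true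
      · left
        simpa [hq2] using h2
      · right
        simpa [hq2] using h2
  choose p hp using fun j => (hex j).1
  exact ⟨V', hV', ⟨p, hp⟩, fun j => (hex j).2⟩

/-- Countably many two-element open covers which separate points from closed sets. -/
lemma exists_pairs (X : Type u) [TopologicalSpace X] [RegularSpace X]
    [SecondCountableTopology X] :
    ∃ A B : ℕ → Set X, (∀ k, IsOpen (A k)) ∧ (∀ k, IsOpen (B k)) ∧ (∀ k, A k ∪ B k = univ) ∧
      ∀ (x : X) (U : Set X), IsOpen U → x ∈ U → ∃ k, closure (A k) ⊆ U ∧ x ∉ closure (B k) := by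
  classical
  have hc : (insert ∅ (countableBasis X)).Countable := (countable_countableBasis X).insert _
  obtain ⟨b, hb⟩ := hc.exists_eq_range ⟨∅, mem_insert _ _⟩
  have hbo : ∀ m, IsOpen (b m) := by
    intro m
    have : b m ∈ insert ∅ (countableBasis X) := by rw [hb]; exact ⟨m, rfl⟩
    rcases this with h | h
    · rw [h]; exact isOpen_empty
    · exact isOpen_of_mem_countableBasis h
  have hbb : ∀ (x : X) (U : Set X), IsOpen U → x ∈ U → ∃ m, x ∈ b m ∧ closure (b m) ⊆ U := by
    intro x U hU hx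
    obtain ⟨t, ht, hxt, htU⟩ :=
      (isBasis_countableBasis X).exists_closure_subset (hU.mem_nhds hx)
    have : t ∈ range b := by rw [← hb]; exact mem_insert_of_mem _ ht
    obtain ⟨m, rfl⟩ := this
    exact ⟨m, hxt, htU⟩
  refine ⟨fun k => b (Nat.unpair k).2, fun k => if closure (b (Nat.unpair k).1) ⊆
    b (Nat.unpair k).2 then (closure (b (Nat.unpair k).1))ᶜ else univ, fun k => hbo _, ?_, ?_, ?_⟩
  · intro k
    simp only
    split_ifs
    · exact isClosed_closure.isOpen_compl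
    · exact isOpen_univ
  · intro k
    simp only
    split_ifs with h
    · rw [eq_univ_iff_forall]
      intro x
      by_cases hx : x ∈ closure (b (Nat.unpair k).1)
      · exact Or.inl (h hx)
      · exact Or.inr hx
    · exact union_univ _
  · intro x U hU hx
    obtain ⟨l, hxl, hl⟩ := hbb x U hU hx
    obtain ⟨m, hxm, hm⟩ := hbb x (b l) (hbo l) hxl
    refine ⟨Nat.pair m l, ?_, ?_⟩
    · simpa using hl
    · simp only [Nat.unpair_pair, hm, if_true]
      intro hx'
      have : closure ((closure (b m))ᶜ) ⊆ (b m)ᶜ :=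
        closure_minimal (compl_subset_compl.2 subset_closure) (hbo m).isClosed_compl
      exact this hx' hxm

/-- The sequence of covers. -/
lemma exists_covers [NormalSpace X] [RegularSpace X] [SecondCountableTopology X] {n : ℕ}
    (h : CoveringDimLE X n) :
    ∃ (V : ℕ → ℕ → Set X) (p : ℕ → ℕ → ℕ), (∀ k, Good n (V k)) ∧
      (∀ k j, V (k + 1) j ⊆ V k (p k j)) ∧
      ∀ (x : X) (U : Set X), IsOpen U → x ∈ U →
        ∃ k, ∀ j, x ∈ closure (V k j) → closure (V k j) ⊆ U := by
  classical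
  obtain ⟨A, B, hA, hB, hAB, hsep⟩ := exists_pairs X
  obtain ⟨V0, hV0, _⟩ := exists_good h {univ} (toFinite _) (by simp) (by simp)
  choose next hnext using fun (k : ℕ) (V : {V : ℕ → Set X // Good n V}) =>
    step h V.2 (hA k) (hB k) (hAB k)
  let W : ℕ → {V : ℕ → Set X // Good n V} := fun k =>
    Nat.rec ⟨V0, hV0⟩ (fun k V => ⟨next k V, (hnext k V).1⟩) k
  have hW : ∀ k, (W (k + 1) : ℕ → Set X) = next k (W k) := fun k => rfl
  choose p hp using fun k => (hnext k (W k)).2.1
  refine ⟨fun k => (W k).1, p, fun k => (W k).2, fun k j => ?_, ?_⟩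
  · simp only [hW]
    exact hp k j
  · intro x U hU hx
    obtain ⟨k, hk1, hk2⟩ := hsep x U hU hx
    refine ⟨k + 1, fun j hj => ?_⟩
    simp only [hW] at hj ⊢
    rcases (hnext k (W k)).2.2 j with h1 | h1
    · exact (closure_mono h1).trans hk1
    · exact absurd (closure_mono h1 hj) hk2

end covers

/-! ### The lexicographic order -/

lemma lex_closed {ι : Type u} {𝒢 : Filter ι} [NeBot 𝒢] {f g : ι → ℕ → ℕ} {t v : ℕ → ℕ}
    (hf : Tendsto f 𝒢 (𝓝 t)) (hg : Tendsto g 𝒢 (𝓝 v))
    (h : ∀ a, toLex (f a) ≤ toLex (g a)) : toLex t ≤ toLex v := by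
  by_contra hlt
  rw [not_le] at hlt
  obtain ⟨k, hk1, hk2⟩ := hlt
  have hev : ∀ {f : ι → ℕ → ℕ} {t : ℕ → ℕ}, Tendsto f 𝒢 (𝓝 t) →
      ∀ᶠ a in 𝒢, ∀ j ≤ k, f a j = t j := by
    intro f t hf
    rw [tendsto_pi_nhds] at hf
    have : ∀ j ∈ Iic k, ∀ᶠ a in 𝒢, f a j = t j := by
      intro j _
      have := hf j
      rw [nhds_discrete] at this
      exact tendsto_pure.1 this
    have := (eventually_all_finite (finite_Iic k)).2 this
    exact this
  obtain ⟨a, ha1, ha2⟩ := ((hev hf).and (hev hg)).exists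
  apply absurd (h a)
  rw [not_le]
  refine ⟨k, fun j hj => ?_, ?_⟩
  · have := hk1 j hj
    simp only [Pi.toLex_apply] at this ⊢
    rw [ha1 j (le_of_lt hj), ha2 j (le_of_lt hj)]
    exact this
  · simp only [Pi.toLex_apply] at hk2 ⊢
    rw [ha1 k le_rfl, ha2 k le_rfl]
    exact hk2

/-- A monotone self-map of a nonempty finite chain has a fixed point. -/
lemma fin_fixed {c : ℕ} (hc : 0 < c) (g : Fin c → Fin c) (hg : Monotone g) : ∃ i, g i = i := by
  classical
  let S : Finset (Fin c) := Finset.univ.filter fun i => i ≤ g i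
  have hS : S.Nonempty := ⟨⟨0, hc⟩, Finset.mem_filter.2 ⟨Finset.mem_univ _, Nat.zero_le _⟩⟩
  obtain ⟨i, hiS, hmax⟩ := Finset.exists_max_image S id hS
  have hi : i ≤ g i := (Finset.mem_filter.1 hiS).2
  refine ⟨i, le_antisymm ?_ hi⟩
  exact hmax _ (Finset.mem_filter.2 ⟨Finset.mem_univ _, hg hi⟩)

/-- Enumeration of a finite nonempty set of sequences in increasing order. -/
lemma exists_enum {n : ℕ} (T : Set (ℕ → ℕ)) (hne : T.Nonempty) (hcard : T.encard ≤ n + 1) :
    ∃ s : ℕ → ℕ → ℕ, (∀ i, s i ∈ T) ∧ (∀ i j, i ≤ j → toLex (s i) ≤ toLex (s j)) ∧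
      ∀ t : ℕ → ℕ → ℕ, (∀ i, t i ∈ T) → (∀ i j, i ≤ j → toLex (t i) ≤ toLex (t j)) →
        ∃ i ≤ n, t i = s i := by
  classical
  have hfin : T.Finite := by
    apply finite_of_encard_le_coe (k := n + 1)
    exact_mod_cast hcard
  let F : Finset (Lex (ℕ → ℕ)) := (hfin.image toLex).toFinset
  have hF : ∀ t, toLex t ∈ F ↔ t ∈ T := by
    intro t
    simp only [F, Finite.mem_toFinset]
    constructor
    · rintro ⟨v, hv, hvt⟩
      rwa [← toLex_inj.1 hvt]
    · intro ht
      exact ⟨t, ht, rfl⟩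
  have hpos : 0 < F.card := by
    obtain ⟨t, ht⟩ := hne
    exact Finset.card_pos.2 ⟨toLex t, (hF t).2 ht⟩
  have hle : F.card ≤ n + 1 := by
    have h1 : (F.card : ℕ∞) = T.encard := by
      rw [← encard_coe_eq_coe_finsetCard]
      have : (F : Set (Lex (ℕ → ℕ))) = toLex '' T := by simp [F]
      rw [this, toLex.injective.encard_image]
    rw [← h1] at hcard
    exact_mod_cast hcard
  let e := F.orderEmbOfFin rfl
  let s : ℕ → ℕ → ℕ := fun i => ofLex (e ⟨min i (F.card - 1), by omega⟩)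
  refine ⟨s, fun i => ?_, fun i j hij => ?_, fun t ht htm => ?_⟩
  · rw [← hF]
    exact F.orderEmbOfFin_mem rfl _
  · change e _ ≤ e _
    apply e.monotone
    rw [Fin.le_def]
    exact min_le_min_right _ hij
  · have hex : ∀ i : Fin F.card, ∃ a : Fin F.card, e a = toLex (t i) := by
      intro i
      have h1 : toLex (t i) ∈ (F : Set (Lex (ℕ → ℕ))) := (hF _).2 (ht _)
      rw [← F.range_orderEmbOfFin rfl] at h1
      exact h1
    choose g hg using hex
    have hgm : Monotone g := by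
      intro i j hij
      rw [← e.le_iff_le, hg, hg]
      exact htm _ _ hij
    obtain ⟨i, hi⟩ := fin_fixed hpos g hgm
    refine ⟨i, by omega, ?_⟩
    apply toLex_inj.1
    rw [← hg, hi]
    change e i = e _
    congr 1
    apply Fin.ext
    have := i.2
    simp only
    omega

/-! ### Threads -/

section threads

variable {X : Type u} [TopologicalSpace X] {n : ℕ} (V : ℕ → ℕ → Set X) (p : ℕ → ℕ → ℕ)

/-- The threads at `x`. -/
def Thr (x : X) : Set (ℕ → ℕ) :=
  {t | ∀ k, x ∈ closure (V k (t k)) ∧ p k (t (k + 1)) = t k}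

/-- Ancestor at level `k` of an index at level `k + d`. -/
def anc (p : ℕ → ℕ → ℕ) : ℕ → ℕ → ℕ → ℕ
  | 0, _, j => j
  | d + 1, k, j => p k (anc p d (k + 1) j)

variable {V p}

omit [TopologicalSpace X] in
lemma mem_anc (hp : ∀ k j, V (k + 1) j ⊆ V k (p k j)) {x : X} (d : ℕ) :
    ∀ k j, x ∈ V (k + d) j → x ∈ V k (anc p d k j) := by
  induction d with
  | zero => intro k j hx; simpa [anc] using hx
  | succ d ih =>
    intro k j hx
    apply hp
    apply ih
    have e : k + 1 + d = k + (d + 1) := by ring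
    rwa [e]

/-- The compact set containing all threads. -/
lemma exists_compact (hV : ∀ k, Good n (V k)) :
    ∃ K : Set (ℕ → ℕ), IsCompact K ∧ ∀ t : ℕ → ℕ, (∀ k, (closure (V k (t k))).Nonempty) →
      t ∈ K := by
  choose m hm using fun k => (hV k).fin
  refine ⟨univ.pi fun k => Iio (m k), isCompact_univ_pi fun k => (finite_Iio _).isCompact, ?_⟩
  intro t ht k _
  by_contra hc
  have hc' : m k ≤ t k := not_lt.1 hc
  have := ht k
  rw [hm k _ hc', closure_empty] at this
  exact not_nonempty_empty this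

lemma thr_nonempty (hV : ∀ k, Good n (V k)) (hp : ∀ k j, V (k + 1) j ⊆ V k (p k j)) (x : X) :
    (Thr V p x).Nonempty := by
  classical
  choose j hj using fun k => (hV k).cov x
  -- approximate threads
  let t : ℕ → ℕ → ℕ := fun m k => if k ≤ m then anc p (m - k) k (j m) else j k
  have htV : ∀ m k, x ∈ V k (t m k) := by
    intro m k
    by_cases hk : k ≤ m
    · simp only [t, hk, if_true]
      apply mem_anc hp
      rw [Nat.add_sub_cancel' hk]
      exact hj m
    · simp only [t, hk, if_false]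
      exact hj k
  obtain ⟨K, hK, hKt⟩ := exists_compact hV
  have htK : ∀ m, t m ∈ K := fun m => hKt _ fun k => ⟨x, subset_closure (htV m k)⟩
  obtain ⟨w, _, φ, hφ, hw⟩ := hK.tendsto_subseq htK
  refine ⟨w, fun k => ?_⟩
  rw [tendsto_pi_nhds] at hw
  have h1 : ∀ k, ∀ᶠ a in atTop, t (φ a) k = w k := by
    intro k
    have := hw k
    rw [nhds_discrete] at this
    exact tendsto_pure.1 this
  have h2 : ∀ᶠ a in atTop, k + 1 ≤ φ a := hφ.tendsto_atTop.eventually_ge_atTop _
  obtain ⟨a, ha1, ha2, ha3⟩ := ((h1 k).and ((h1 (k + 1)).and h2)).exists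
  refine ⟨?_, ?_⟩
  · rw [← ha1]
    exact subset_closure (htV _ _)
  · rw [← ha1, ← ha2]
    have hk : k ≤ φ a := by omega
    simp only [t, ha3, hk, if_true]
    have e : φ a - k = (φ a - (k + 1)) + 1 := by omega
    rw [e]
    rfl

lemma thr_card (hV : ∀ k, Good n (V k)) (x : X) : (Thr V p x).encard ≤ n + 1 := by
  by_contra hc
  rw [not_le] at hc
  have h2 : ((n + 2 : ℕ) : ℕ∞) ≤ (Thr V p x).encard := by
    have := Order.add_one_le_of_lt hc
    have e : ((n + 2 : ℕ) : ℕ∞) = (n : ℕ∞) + 1 + 1 := by push_cast; ring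
    rw [e]
    exact this
  obtain ⟨F, hFT, hFc⟩ := exists_subset_encard_eq h2
  have hFfin : F.Finite := finite_of_encard_eq_coe hFc
  have hpair : ∀ t ∈ F, ∀ v ∈ F, ∀ᶠ k in atTop, t k = v k → t = v := by
    intro t ht v hv
    by_cases htv : t = v
    · exact Eventually.of_forall fun k _ => htv
    · obtain ⟨k0, hk0⟩ := Function.ne_iff.1 htv
      have : ∀ d, t (k0 + d) ≠ v (k0 + d) := by
        intro d
        induction d with
        | zero => exact hk0
        | succ d ih =>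
          intro h
          apply ih
          rw [← (hFT ht (k0 + d)).2, ← (hFT hv (k0 + d)).2]
          exact congrArg _ h
      filter_upwards [eventually_ge_atTop k0] with k hk h
      exfalso
      apply this (k - k0)
      rwa [Nat.add_sub_cancel' hk]
  have hall : ∀ᶠ k in atTop, ∀ t ∈ F, ∀ v ∈ F, t k = v k → t = v := by
    rw [eventually_all_finite hFfin]
    intro t ht
    rw [eventually_all_finite hFfin]
    exact hpair t ht
  obtain ⟨k, hk⟩ := hall.exists
  have hinj : InjOn (fun t : ℕ → ℕ => t k) F := fun t ht v hv h => hk t ht v hv h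
  have h3 := hinj.encard_image
  have hsub : (fun t : ℕ → ℕ => t k) '' F ⊆ {j | x ∈ closure (V k j)} := by
    rintro _ ⟨t, ht, rfl⟩
    exact (hFT ht k).1
  have h4 := (encard_le_encard hsub).trans ((hV k).ord x)
  rw [h3, hFc] at h4
  have h5 : ((n + 2 : ℕ) : ℕ∞) ≤ ((n + 1 : ℕ) : ℕ∞) := by
    have e : ((n + 1 : ℕ) : ℕ∞) = (n : ℕ∞) + 1 := by push_cast; ring
    rw [e]
    exact h4
  rw [Nat.cast_le] at h5
  omega

lemma thr_closed {x : X} {𝒢 : Filter X} [NeBot 𝒢] (hx : 𝒢 ≤ 𝓝 x) {s : X → ℕ → ℕ}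
    (hs : ∀ y, s y ∈ Thr V p y) {t : ℕ → ℕ} (ht : Tendsto s 𝒢 (𝓝 t)) : t ∈ Thr V p x := by
  intro k
  rw [tendsto_pi_nhds] at ht
  have h1 : ∀ k, ∀ᶠ y in 𝒢, s y k = t k := by
    intro k
    have := ht k
    rw [nhds_discrete] at this
    exact tendsto_pure.1 this
  refine ⟨?_, ?_⟩
  · apply isClosed_closure.mem_of_tendsto (f := id) (b := 𝒢) hx
    filter_upwards [h1 k] with y hy
    rw [← hy]
    exact (hs y k).1
  · obtain ⟨y, hy1, hy2⟩ := ((h1 k).and (h1 (k + 1))).exists
    rw [← hy1, ← hy2]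
    exact (hs y k).2

end threads

/-! ### Topologies induced from the Baire space -/

lemma isClopen_cyl (t : ℕ → ℕ) (k : ℕ) : IsClopen {v : ℕ → ℕ | ∀ j ∈ Iio k, v j = t j} := by
  have : {v : ℕ → ℕ | ∀ j ∈ Iio k, v j = t j} = ⋂ j ∈ Iio k, (fun v : ℕ → ℕ => v j) ⁻¹' {t j} := by
    ext v
    simp
  rw [this]
  apply (finite_Iio k).isClopen_biInter
  intro j _
  exact (isClopen_discrete _).preimage (continuous_apply j)

lemma exists_cyl {t : ℕ → ℕ} {O : Set (ℕ → ℕ)} (hO : IsOpen O) (ht : t ∈ O) :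
    ∃ k, {v : ℕ → ℕ | ∀ j ∈ Iio k, v j = t j} ⊆ O := by
  obtain ⟨F, W, hW, hWO⟩ := isOpen_pi_iff.1 hO t ht
  obtain ⟨k, hk⟩ : ∃ k, ∀ j ∈ F, j < k := by
    refine ⟨F.sup id + 1, fun j hj => ?_⟩
    exact Nat.lt_succ_of_le (Finset.le_sup (f := id) hj)
  refine ⟨k, fun v hv => hWO ?_⟩
  intro j hj
  rw [hv j (hk j hj)]
  exact (hW j hj).2

lemma isSM0_induced {X : Type u} (s : X → ℕ → ℕ) (hs : Function.Injective s) :
    IsSM0 (TopologicalSpace.induced s inferInstance) := by
  let _ : TopologicalSpace X := TopologicalSpace.induced s inferInstance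
  have hind : Topology.IsInducing s := ⟨rfl⟩
  have hemb : Topology.IsEmbedding s := ⟨hind, hs⟩
  have h2 : SecondCountableTopology X := hind.secondCountableTopology
  refine ⟨inferInstance, hemb.metrizableSpace, ?_⟩
  apply isTopologicalBasis_of_isOpen_of_nhds
  · intro U hU
    exact hU.isOpen
  · intro x U hx hU
    obtain ⟨O, hO, rfl⟩ := isOpen_induced_iff.1 hU
    obtain ⟨k, hk⟩ := exists_cyl hO hx
    exact ⟨s ⁻¹' {v : ℕ → ℕ | ∀ j ∈ Iio k, v j = s x j},
      (isClopen_cyl (s x) k).preimage hind.continuous, fun j _ => rfl, preimage_mono hk⟩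

/-- **Structural numbers.** Let `(X, τ)` be a separable metrizable space with covering
dimension at most `n`. Then `τ` is the intersection of `n + 1` topologies on `X`, each of which
contains `τ` and is separable, metrizable and zero-dimensional. -/
theorem result (X : Type u) [τ : TopologicalSpace X] [MetrizableSpace X] [SeparableSpace X]
    (n : ℕ) (h : CoveringDimLE X n) :
    ∃ σ : Fin (n + 1) → TopologicalSpace X,
      (∀ i, (∀ U : Set X, IsOpen[τ] U → IsOpen[σ i] U) ∧ IsSM0 (σ i)) ∧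
      ∀ U : Set X, IsOpen[τ] U ↔ ∀ i, IsOpen[σ i] U := by
  classical
  let _ := metrizableSpaceMetric X
  have : SecondCountableTopology X := UniformSpace.secondCountable_of_separable X
  obtain ⟨V, p, hV, hp, hsep⟩ := exists_covers h
  choose s hs1 hs2 hs3 using fun x : X =>
    exists_enum (Thr V p x) (thr_nonempty hV hp x) (thr_card hV x)
  -- the key property of the maps `s · i`
  have hfine : ∀ (i : ℕ) (x : X) (U : Set X), IsOpen U → x ∈ U →
      ∃ k, ∀ y, s y i k = s x i k → y ∈ U := by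
    intro i x U hU hx
    obtain ⟨k, hk⟩ := hsep x U hU hx
    refine ⟨k, fun y hy => hk (s x i k) (hs1 x i k).1 ?_⟩
    rw [← hy]
    exact (hs1 y i k).1
  have hinj : ∀ i, Function.Injective fun x => s x i := by
    intro i x y hxy
    by_contra hne
    obtain ⟨k, hk⟩ := hfine i x {y}ᶜ isOpen_compl_singleton hne
    exact hk y (congrFun hxy.symm k) rfl
  have hle : ∀ (i : ℕ) (U : Set X), IsOpen U →
      IsOpen[TopologicalSpace.induced (fun x => s x i) inferInstance] U := by
    intro i U hU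
    let _ : TopologicalSpace X := TopologicalSpace.induced (fun x => s x i) inferInstance
    rw [isOpen_iff_forall_mem_open]
    intro x hx
    obtain ⟨k, hk⟩ := hfine i x U hU hx
    refine ⟨(fun x => s x i) ⁻¹' {v | v k = s x i k}, fun y hy => hk y hy, ?_, rfl⟩
    apply isOpen_induced
    have : IsOpen ((fun v : ℕ → ℕ => v k) ⁻¹' {s x i k}) :=
      (isOpen_discrete _).preimage (continuous_apply k)
    exact this
  refine ⟨fun i => TopologicalSpace.induced (fun x => s x i) inferInstance,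
    fun i => ⟨hle i, isSM0_induced _ (hinj i)⟩, fun U => ⟨fun hU i => hle i U hU, fun hU => ?_⟩⟩
  rw [isOpen_iff_mem_nhds]
  intro x hx
  by_contra hnot
  -- an ultrafilter converging to `x` outside `U`
  have hne : NeBot (𝓝 x ⊓ 𝓟 Uᶜ) := by
    rw [inf_principal_neBot_iff]
    intro W hW
    by_contra hemp
    apply hnot
    apply mem_of_superset hW
    intro y hy
    by_contra hyU
    exact hemp ⟨y, hy, hyU⟩
  let 𝒢 : Ultrafilter X := Ultrafilter.of (𝓝 x ⊓ 𝓟 Uᶜ)
  have h𝒢 : (𝒢 : Filter X) ≤ 𝓝 x ⊓ 𝓟 Uᶜ := Ultrafilter.of_le _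
  have h𝒢x : (𝒢 : Filter X) ≤ 𝓝 x := h𝒢.trans inf_le_left
  have h𝒢U : Uᶜ ∈ (𝒢 : Filter X) := h𝒢 (mem_inf_of_right (mem_principal_self _))
  obtain ⟨K, hK, hKt⟩ := exists_compact hV
  have hlim : ∀ i, ∃ t, Tendsto (fun y => s y i) 𝒢 (𝓝 t) := by
    intro i
    have hKi : ((𝒢.map fun y => s y i : Ultrafilter (ℕ → ℕ)) : Filter (ℕ → ℕ)) ≤ 𝓟 K := by
      rw [le_principal_iff, Ultrafilter.coe_map, mem_map]
      apply Filter.mem_of_superset univ_mem
      intro y _
      exact hKt _ fun k => ⟨y, (hs1 y i k).1⟩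
    obtain ⟨t, _, ht⟩ := isCompact_iff_ultrafilter_le_nhds.1 hK _ hKi
    exact ⟨t, ht⟩
  choose t ht using hlim
  obtain ⟨i, hin, hi⟩ := hs3 x t (fun i => thr_closed h𝒢x (fun y => hs1 y i) (ht i))
    (fun i j hij => lex_closed (ht i) (ht j) fun y => hs2 y i j hij)
  obtain ⟨O, hO, hOU⟩ := isOpen_induced_iff.1 (hU ⟨i, Nat.lt_succ_of_le hin⟩)
  have hxO : t i ∈ O := by
    rw [hi]
    have : x ∈ (fun x => s x i) ⁻¹' O := by
      rw [hOU]
      exact hx
    exact this
  have hmem : U ∈ (𝒢 : Filter X) := by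
    rw [← hOU]
    exact ht i (hO.mem_nhds hxO)
  have := inter_mem hmem h𝒢U
  rw [inter_compl_self] at this
  exact 𝒢.neBot.ne (empty_mem_iff_bot.1 this)

end Pool.Agent.Results.MP_085bfa_gt.SnSeparable
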